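import Pool.Agent.Work.MP_db9399_og.Interface2

/-!
# MP_db9399, OUTX (helper35): OWNG2 on the real vertices and the dummies
-/

set_option autoImplicit false

namespace Pool.Agent.Work.MP_db9399_outx.helper35

open Finset Classical
open Pool.Agent.Work.MP_db9399_all (nb mis)
open Pool.Agent.Work.MP_db9399_sg
open Pool.Agent.Work.MP_db9399_ox
open Pool.Agent.Work.MP_db9399_og
open Pool.Agent.Work.MP_db9399_owc (Cap)

universe u

/-- OWNG2 with the hypotheses on the real vertices `W`; `Y` = dummies, `Yz` = index of the caps. -/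
def Stmt_OWNL : Prop :=
  ∃ s a0 : ℝ, 1 ≤ s ∧ 0 < a0 ∧ ∀ a C C1 e2 : ℝ, 0 < a → a ≤ a0 → a ≤ 1 / 100 → 1 ≤ C → 0 < C1 →
    0 < e2 → ∃ e : ℝ, 0 < e ∧ ∀ MS δ β c1 C' ρ0 ρ2 : ℝ, 0 < ρ0 → ∃ d0 : ℕ,
    ∀ {W Y I I' J Yz : Type u} [Fintype W] [Fintype Y] [Fintype I] [Fintype I'] [Fintype J]
      [Fintype Yz] (P : ℕ)
      (cl : Fin P → J) (E Cf : SimpleGraph W) (H : J → SimpleGraph W)
      (Gh S : J → SimpleGraph (W ⊕ Y)) (O U : Finset W) (K : Finset (W ⊕ Y))
      (A Ex Exc : J → Finset (W ⊕ Y)) (nd : J → W ⊕ Y → Option (I × Bool)) (pr : I → I') (d : ℕ)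
      (D r : J → ℕ) (g : ℝ) (L : ℕ) (N0 N : Fin P → W ⊕ Y → W ⊕ Y) (Z : Yz → Finset W), d0 ≤ d →
      Cls (fun j => (H j).map Function.Embedding.inl) Gh (O.map Function.Embedding.inl)
        (univ.map Function.Embedding.inl) A Ex nd pr d D r a MS g δ β c1 C C' ρ0 →
      (∀ j, (univ.filter fun b => cl b = j).card + r j = D j) → ∑ j, D j = d → U ⊆ O →
      (∀ v, (nb E v).card ≤ d) → (∀ v ∈ U, (nb E v).card = d) →
      (∀ j, H j ≤ E) →
      (∀ v ∈ U, (d : ℝ) ^ (2 - a / 100) ≤ ((mis E (nb E v)).card : ℝ)) →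
      (∀ v w, Cf.Adj v w → v ∈ U) → (∀ v, 2 * (nb Cf v).card ≤ (nb E v \ U).card) → Cap d Z →
      (∀ j, ResN ((H j).map Function.Embedding.inl) (Gh j) (S j) (O.map Function.Embedding.inl)
          (A j) (D j) (r j) a (g / 100) δ (2 * β + 8 * ρ0)
          (c1 / 100) (8 * ρ0) (8 * ρ2) MS K (Exc j)) →
      (∀ j, Krn (S j) (O.map Function.Embedding.inl) (r j) L (D j) a C1 e) →
      (∀ j, Flw ((H j).map Function.Embedding.inl) (S j) (O.map Function.Embedding.inl)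
        (U.map Function.Embedding.inl) (r j) L (e * d)) →
      Mt0 (fun j => (H j).map Function.Embedding.inl) S cl (O.map Function.Embedding.inl)
        nd pr d D r a e (1000 * C' ^ 2 * ρ0) L N0 →
      Mt1 S cl (univ.map Function.Embedding.inl) nd N0 N →
      ∃ c : W ⊕ Y → Option (Fin P),
        Own1 (E.map Function.Embedding.inl) (fun j => (H j).map Function.Embedding.inl) S cl
          (O.map Function.Embedding.inl) (U.map Function.Embedding.inl) nd d r (10 * s * a) 2 e2 e2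
          L c N ∧
        (∀ v w, Cf.Adj v w → c (Sum.inl v) ≠ c (Sum.inl w)) ∧
        ∀ y b, (((Z y).filter (fun v => c (Sum.inl v) = some b)).card : ℝ) ≤
          Real.log d ^ 4 * (1 + ((Z y).card : ℝ) / d)

section lift

theorem mem_nb {V : Type u} [Fintype V] {G : SimpleGraph V} {v w : V} :
    w ∈ nb G v ↔ G.Adj v w := by
  unfold nb
  rw [Finset.mem_filter]
  exact ⟨fun h => h.2, fun h => ⟨Finset.mem_univ _, h⟩⟩

theorem mem_mis {V : Type u} {G : SimpleGraph V} {A : Finset V} {p : V × V} :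
    p ∈ mis G A ↔ p.1 ∈ A ∧ p.2 ∈ A ∧ p.1 ≠ p.2 ∧ ¬ G.Adj p.1 p.2 := by
  unfold mis
  rw [Finset.mem_filter, Finset.mem_product, and_assoc]

variable {W : Type u} [Fintype W] {Y : Type u} [Fintype Y]

/-- opaque copy of `inl` -/
theorem map_adj {V : Type u} (ι : W ↪ V) (E : SimpleGraph W) (v w : W) :
    (E.map ι).Adj (ι v) (ι w) ↔ E.Adj v w :=
  SimpleGraph.map_adj_apply

theorem map_adj' {V : Type u} (ι : W ↪ V) (E : SimpleGraph W) (a b : V) :
    (E.map ι).Adj a b ↔ ∃ v w, E.Adj v w ∧ ι v = a ∧ ι w = b :=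
  SimpleGraph.map_adj ι E a b

theorem nb_map {V : Type u} [Fintype V] (ι : W ↪ V) (E : SimpleGraph W) (v : W) :
    nb (E.map ι) (ι v) = (nb E v).map ι := by
  ext a
  rw [mem_nb, mem_map, map_adj']
  constructor
  · rintro ⟨v', w, h1, h2, h3⟩
    have := ι.injective h2
    subst this
    exact ⟨w, mem_nb.mpr h1, h3⟩
  · rintro ⟨w, h1, h2⟩
    exact ⟨v, w, mem_nb.mp h1, rfl, h2⟩

theorem nb_map_no {V : Type u} [Fintype V] (ι : W ↪ V) (E : SimpleGraph W) (a : V)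
    (ha : ∀ v, ι v ≠ a) : nb (E.map ι) a = ∅ := by
  rw [eq_empty_iff_forall_notMem]
  intro b hb
  obtain ⟨v, w, h1, h2, h3⟩ := (map_adj' ι E a b).mp (mem_nb.mp hb)
  exact ha v h2

theorem card_nb_map {V : Type u} [Fintype V] (ι : W ↪ V) (E : SimpleGraph W) (v : W) :
    (nb (E.map ι) (ι v)).card = (nb E v).card := by
  rw [nb_map, card_map]

theorem card_nb_le {V : Type u} [Fintype V] (ι : W ↪ V) (E : SimpleGraph W) (d : ℕ)
    (h : ∀ v, (nb E v).card ≤ d) (a : V) : (nb (E.map ι) a).card ≤ d := by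
  by_cases ha : ∃ v, ι v = a
  · obtain ⟨v, rfl⟩ := ha
    rw [card_nb_map]
    exact h v
  · rw [nb_map_no ι E a (fun v hv => ha ⟨v, hv⟩), card_empty]
    exact Nat.zero_le _

theorem mis_map {V : Type u} [Fintype V] (ι : W ↪ V) (E : SimpleGraph W) (v : W) :
    (mis E (nb E v)).card ≤ (mis (E.map ι) (nb (E.map ι) (ι v))).card := by
  apply card_le_card_of_injOn (fun p => (ι p.1, ι p.2))
  · intro p hp
    obtain ⟨h1, h2, h3, h4⟩ := mem_mis.mp (mem_coe.mp hp)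
    refine mem_coe.mpr (mem_mis.mpr ?_)
    rw [nb_map]
    refine ⟨mem_map_of_mem ι h1, mem_map_of_mem ι h2, fun h => h3 (ι.injective h), ?_⟩
    intro h
    exact h4 ((map_adj ι E _ _).mp h)
  · intro p _ q _ h
    have h1 := Prod.mk.inj h
    exact Prod.ext (ι.injective h1.1) (ι.injective h1.2)

theorem cf_map {V : Type u} [Fintype V] (ι : W ↪ V) (E Cf : SimpleGraph W) (U : Finset W)
    (h : ∀ v, 2 * (nb Cf v).card ≤ (nb E v \ U).card) (a : V) :
    2 * (nb (Cf.map ι) a).card ≤ (nb (E.map ι) a \ U.map ι).card := by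
  by_cases ha : ∃ v, ι v = a
  · obtain ⟨v, rfl⟩ := ha
    rw [card_nb_map, nb_map, ← Finset.map_sdiff, card_map]
    exact h v
  · rw [nb_map_no ι Cf a (fun v hv => ha ⟨v, hv⟩), card_empty]
    exact Nat.zero_le _

theorem cap_map {V Yz : Type u} [Fintype V] [Fintype Yz] (ι : W ↪ V) (d : ℕ) (Z : Yz → Finset W)
    (h : Cap d Z) : Cap d (fun y => (Z y).map ι) := by
  constructor
  · intro y
    rw [card_map]
    exact h.card y
  · intro a
    by_cases ha : ∃ v, ι v = a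
    · obtain ⟨v, rfl⟩ := ha
      refine le_trans (card_le_card ?_) (h.mul v)
      intro y hy
      obtain ⟨w, h1, h2⟩ := mem_map.mp (mem_filter.mp hy).2
      have := ι.injective h2
      subst this
      exact mem_filter.mpr ⟨mem_univ _, h1⟩
    · have h1 : (univ.filter fun y => a ∈ (Z y).map ι) = ∅ := by
        rw [filter_eq_empty_iff]
        intro y _ hy
        obtain ⟨v, -, hv⟩ := mem_map.mp hy
        exact ha ⟨v, hv⟩
      rw [h1, card_empty]
      exact Nat.zero_le _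

end lift

theorem ownl (h : Stmt_OWNG2.{u}) : Stmt_OWNL.{u} := by
  obtain ⟨s, a0, hs, ha0, h⟩ := h
  refine ⟨s, a0, hs, ha0, ?_⟩
  intro a C C1 e2 ha haa ha1 hC hC1 he2
  obtain ⟨e, he, h⟩ := h a C C1 e2 ha haa ha1 hC hC1 he2
  refine ⟨e, he, ?_⟩
  intro MS δ β c1 C' ρ0 ρ2 hρ0
  obtain ⟨d0, h⟩ := h MS δ β c1 C' ρ0 ρ2 hρ0
  refine ⟨d0, ?_⟩
  intro W Y I I' J Yz _ _ _ _ _ _ P cl E Cf H Gh S O U K A Ex Exc nd pr d D r g L N0 N Z hd hCls
    hcr hsum hUO hEd hEU hHE hmis hCU hC2 hZ hS hK hF h0 h1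
  obtain ⟨ι, hι⟩ : ∃ ι : W ↪ W ⊕ Y, ι = Function.Embedding.inl := ⟨_, rfl⟩
  have hι' : ∀ v, ι v = Sum.inl v := fun v => by rw [hι]; rfl
  rw [← hι] at hCls hS hK hF h0 h1 ⊢
  obtain ⟨c, hc1, hc2, hc3⟩ := h P cl (E.map ι) (Cf.map ι) (fun j => (H j).map ι) Gh S (O.map ι)
    (univ.map ι) (U.map ι) K A Ex Exc nd pr d D r g L N0 N (fun y => (Z y).map ι) hd hCls hcr hsum
    (map_subset_map.mpr hUO) (card_nb_le ι E d hEd)
    (fun a ha => by
      obtain ⟨v, hv, rfl⟩ := mem_map.mp ha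
      rw [card_nb_map]
      exact hEU v hv)
    (fun a b hab => by
      obtain ⟨v, w, h1, h2, h3⟩ := (map_adj' ι E a b).mp hab
      exact mem_map.mpr ⟨v, mem_univ _, h2⟩)
    (fun j a b hab => by
      obtain ⟨v, w, h1, h2, h3⟩ := (map_adj' ι (H j) a b).mp hab
      exact (map_adj' ι E a b).mpr ⟨v, w, hHE j h1, h2, h3⟩)
    (fun a ha => by
      obtain ⟨v, hv, rfl⟩ := mem_map.mp ha
      exact (hmis v hv).trans (Nat.cast_le.mpr (mis_map ι E v)))
    (fun a b hab => by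
      obtain ⟨v, w, h1, h2, h3⟩ := (map_adj' ι Cf a b).mp hab
      exact mem_map.mpr ⟨v, hCU v w h1, h2⟩)
    (cf_map ι E Cf U hC2) (cap_map ι d Z hZ) hS hK hF h0 h1
  refine ⟨c, hc1, ?_, ?_⟩
  · intro v w hvw
    have h2 := hc2 (ι v) (ι w) ((map_adj' ι Cf _ _).mpr ⟨v, w, hvw, rfl, rfl⟩)
    rw [hι', hι'] at h2
    exact h2
  · intro y b
    have h2 := hc3 y b
    rw [card_map] at h2
    refine le_trans (Nat.cast_le.mpr ?_) h2
    apply card_le_card_of_injOn (fun v => ι v)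
    · intro v hv
      obtain ⟨h3, h4⟩ := mem_filter.mp (mem_coe.mp hv)
      refine mem_coe.mpr (mem_filter.mpr ⟨mem_map_of_mem ι h3, ?_⟩)
      have h5 := hι' v
      dsimp only
      rw [h5]
      exact h4
    · intro v _ w _ hvw
      exact ι.injective hvw

end Pool.Agent.Work.MP_db9399_outx.helper35
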