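import Pool.Agent.Work.MP_db9399_outx_helper35.OwnL
import Pool.Agent.Work.MP_db9399_oxe_helper48.Defs
import Pool.Agent.Work.MP_db9399_cfg_helper44.Stmt

/-!
# MP_db9399, OUTX (helper35): the own colours in the frame of the pieces

`erx_*`: the hypotheses of `Stmt_OWNL` for `E = Erx G X`, `U = univ.filter (Ow G X d)`, and `Cf`, `Z`
from CFG. `owp_of`: the output gives `OwP`.
-/

set_option autoImplicit false

namespace Pool.Agent.Work.MP_db9399_outx.helper35

open Finset Classical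
open Pool.Agent.Work.MP_db9399_all (nb mis)
open Pool.Agent.Work.MP_db9399_da
open Pool.Agent.Work.MP_db9399_xf
open Pool.Agent.Work.MP_db9399_iv
open Pool.Agent.Work.MP_db9399_oxe
open Pool.Agent.Work.MP_db9399_owc (Cap)
open Pool.Agent.Work.MP_db9399_cfg_helper44

universe u

section

variable {V : Type u} [Fintype V] {N J : ℕ} {G : SimpleGraph V} {d : ℕ} {X : XD V N J}

/-- the vertices with own colours -/
noncomputable def OwF (G : SimpleGraph V) (X : XD V N J) (d : ℕ) : Finset V :=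
  univ.filter fun v => Ow G X d v

theorem mem_OwF {v : V} : v ∈ OwF G X d ↔ Ow G X d v := by
  unfold OwF
  rw [mem_filter]
  exact ⟨fun h => h.2, fun h => ⟨mem_univ _, h⟩⟩

theorem ow_inO {v : V} (h : Ow G X d v) : InO X v := Or.inl h.1

theorem erx_UO : OwF G X d ⊆ OV X := by
  intro v hv
  unfold OV
  exact mem_filter.mpr ⟨mem_univ _, ow_inO (mem_OwF.mp hv)⟩

theorem erx_le : Erx G X ≤ G := fun _ _ h => h.1

/-- all edges at the vertices of `O` are real -/
theorem erx_adj {v w : V} (h : InO X v) : (Erx G X).Adj v w ↔ G.Adj v w :=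
  ⟨fun h' => h'.1, fun h' => ⟨h', fun h'' => h''.2.1 h⟩⟩

theorem erx_nb {v : V} (h : InO X v) : nb (Erx G X) v = nb G v := by
  ext w
  rw [mem_nb, mem_nb]
  exact erx_adj h

theorem erx_deg (hreg : ∀ v, (nb G v).card = d) (v : V) : (nb (Erx G X) v).card ≤ d := by
  rw [← hreg v]
  apply card_le_card
  intro w hw
  exact mem_nb.mpr (mem_nb.mp hw).1

theorem erx_degU (hreg : ∀ v, (nb G v).card = d) : ∀ v ∈ OwF G X d, (nb (Erx G X) v).card = d := by
  intro v hv
  rw [erx_nb (ow_inO (mem_OwF.mp hv))]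
  exact hreg v

theorem erx_mis (v : V) (h : InO X v) :
    (mis G (nb G v)).card ≤ (mis (Erx G X) (nb (Erx G X) v)).card := by
  apply card_le_card
  intro p hp
  obtain ⟨h1, h2, h3, h4⟩ := mem_mis.mp hp
  rw [mem_mis, erx_nb h]
  exact ⟨h1, h2, h3, fun h5 => h4 h5.1⟩

variable {Y : Type u} [Fintype Y] {Cf : SimpleGraph V} {Z : Y → Finset V}

theorem erx_cfU (h : CfG G d X Cf Z) : ∀ v w, Cf.Adj v w → v ∈ OwF G X d := fun v w hvw =>
  mem_OwF.mpr (h.ow v w hvw).1

theorem erx_cf2 (h : CfG G d X Cf Z) :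
    ∀ v, 2 * (nb Cf v).card ≤ (nb (Erx G X) v \ OwF G X d).card := by
  intro v
  by_cases hv : Ow G X d v
  · refine (h.deg v).trans (card_le_card ?_)
    intro w hw
    obtain ⟨h1, h2⟩ := mem_filter.mp hw
    rw [mem_sdiff, erx_nb (ow_inO hv)]
    exact ⟨h1, fun h3 => h2 (mem_OwF.mp h3)⟩
  · have h1 : nb Cf v = ∅ := by
      rw [eq_empty_iff_forall_notMem]
      intro w hw
      exact hv (h.ow v w (mem_nb.mp hw)).1
    rw [h1, card_empty]
    exact Nat.zero_le _

variable {P : ℕ} {cc : V → Option (Fin P)}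

theorem ccv_some {v : V} {b : Fin P} (h : cc v = some b) : ccv cc v = b := by
  unfold ccv
  rw [h]
  rfl

/-- **the own colours in the frame of the pieces** -/
theorem owp_of {τ e : ℝ} {S : Fin J → Scl} (hG : CfG G d X Cf Z)
    (hC : ∀ c : V → ℕ, (∀ v w, Cf.Adj v w → c v ≠ c w) →
      (∀ y b, (((Z y).filter (fun v => c v = b)).card : ℝ) ≤
        Real.log d ^ 4 * (1 + ((Z y).card : ℝ) / d)) →
      CfO τ e (1 / 250) S G d X c (Ow G X d)) (hP : P ≤ d)
    (hdom : ∀ v, cc v ≠ none ↔ Ow G X d v)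
    (hE : ∀ v w, (Erx G X).Adj v w → cc v ≠ none → cc v ≠ cc w)
    (hCf : ∀ v w, Cf.Adj v w → cc v ≠ cc w)
    (hZ : ∀ y b, (((Z y).filter (fun v => cc v = some b)).card : ℝ) ≤
      Real.log d ^ 4 * (1 + ((Z y).card : ℝ) / d)) :
    OwP τ e (1 / 250) S G d X (ccv cc) (Ow G X d) := by
  have hsome : ∀ v, Ow G X d v → ∃ b : Fin P, cc v = some b := by
    intro v hv
    exact Option.ne_none_iff_exists'.mp ((hdom v).mpr hv)
  have hne : ∀ v w, Ow G X d v → Ow G X d w → cc v ≠ cc w → ccv cc v ≠ ccv cc w := by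
    intro v w hv hw h1 h2
    obtain ⟨b, hb⟩ := hsome v hv
    obtain ⟨b', hb'⟩ := hsome w hw
    rw [ccv_some hb, ccv_some hb'] at h2
    apply h1
    rw [hb, hb', Fin.ext h2]
  have hO : CfO τ e (1 / 250) S G d X (ccv cc) (Ow G X d) := by
    apply hC
    · intro v w hvw
      exact hne v w (hG.ow v w hvw).1 (hG.ow v w hvw).2 (hCf v w hvw)
    · intro y b
      have h0 : (0 : ℝ) ≤ Real.log d ^ 4 * (1 + ((Z y).card : ℝ) / d) := by positivity
      by_cases hb : b < P
      · refine le_trans (Nat.cast_le.mpr (card_le_card ?_)) (hZ y ⟨b, hb⟩)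
        intro v hv
        obtain ⟨h1, h2⟩ := mem_filter.mp hv
        obtain ⟨b', hb'⟩ := hsome v (hG.zow y v h1)
        rw [ccv_some hb'] at h2
        refine mem_filter.mpr ⟨h1, ?_⟩
        rw [hb']
        exact congrArg some (Fin.ext h2)
      · have h1 : ((Z y).filter fun v => ccv cc v = b) = ∅ := by
          rw [filter_eq_empty_iff]
          intro v hv h2
          obtain ⟨b', hb'⟩ := hsome v (hG.zow y v hv)
          rw [ccv_some hb'] at h2
          exact hb (h2 ▸ b'.2)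
        rw [h1, card_empty]
        push_cast
        exact h0
  refine ⟨?_, ?_, hO.big, hO.sml, hO.dif, hO.non⟩
  · intro v hv
    obtain ⟨b, hb⟩ := hsome v hv
    rw [ccv_some hb]
    have := b.2
    omega
  · intro v w hv hw hvw
    exact hne v w hv hw (hE v w ((erx_adj (ow_inO hv)).mpr hvw) ((hdom v).mpr hv))

end

end Pool.Agent.Work.MP_db9399_outx.helper35
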